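import Pool.Agent.N109.SlabU.CltD
import Pool.Agent.N839.C.Restr
import Pool.Agent.N990.C.Up

/-!
# The continuum limit of the axial field
-/

set_option autoImplicit false
set_option linter.unusedSectionVars false
set_option linter.unusedVariables false

open MeasureTheory Finset Function Filter Topology
open scoped Matrix.Norms.Frobenius

namespace Pool.Agent.N109.CL

open Pool.Agent.N990 hiding CB CB_nonneg dd_le
open Pool.Agent.N109.Slab Pool.Agent.N109.SlabU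
open Pool.Agent.N990.C hiding ext
open Pool.Agent.N839.C
open Pool.Agent.N990.Mach (FU)

noncomputable section

variable {D L : ℕ}

/-- the test field of the lattice -/
def fL (f : Pt D → Fin D → ℝ) (L : ℕ) : SF D L := fun x a =>
  (L : ℝ) ^ (-(((D : ℝ) + 3) / 2)) * f (emb L (x, ((a.2 : ℕ) : ℤ) + 1)) a.1

lemma pr_smul_right (A : Finset (Site D)) (g v : SF D L) (c : ℝ) :
    pr A g (c • v) = c * pr A g v := by
  unfold pr
  rw [Finset.mul_sum]
  refine Finset.sum_congr rfl fun x _ => ?_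
  rw [Finset.mul_sum]
  refine Finset.sum_congr rfl fun a _ => ?_
  simp only [Pi.smul_apply, smul_eq_mul]
  ring

lemma obj_eq (hL : 1 ≤ L) (f : Pt D → Fin D → ℝ) {A : Finset (Site D)} {v : SF D L}
    (hv : ∀ x, x ∉ A → v x = 0) :
    2 * pr A (fL f L) (((L : ℝ) ^ ((1 - (D : ℝ)) / 2)) • v) -
      ∑ x ∈ Ns A, bx (((L : ℝ) ^ ((1 - (D : ℝ)) / 2)) • v) (((L : ℝ) ^ ((1 - (D : ℝ)) / 2)) • v) x =
      JL f v - EL v := by
  have hL0 : (0 : ℝ) < L := by exact_mod_cast hL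
  rw [JL_eq hL f hv, EL_eq hL hv (Finset.Subset.refl (Ns A)), ← Bf_apply, ← Bf_apply,
    pr_smul_right, map_smul, Bf_comm A (((L : ℝ) ^ ((1 - (D : ℝ)) / 2)) • v) v, map_smul,
    smul_eq_mul, smul_eq_mul]
  have e1 : (L : ℝ) ^ ((1 - (D : ℝ)) / 2) * (L : ℝ) ^ (-(((D : ℝ) + 3) / 2)) =
      (1 / (L : ℝ)) ^ (D + 1) := by
    rw [← Real.rpow_add hL0, one_div, inv_pow, ← Real.rpow_natCast, ← Real.rpow_neg hL0.le]
    congr 1
    push_cast
    ring
  have e2 : (L : ℝ) ^ ((1 - (D : ℝ)) / 2) * (L : ℝ) ^ ((1 - (D : ℝ)) / 2) =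
      (1 / (L : ℝ)) ^ (D + 1) * (L : ℝ) ^ 2 := by
    rw [← Real.rpow_add hL0, one_div, inv_pow, ← Real.rpow_natCast, ← Real.rpow_neg hL0.le,
      ← Real.rpow_natCast, ← Real.rpow_add hL0]
    congr 1
    push_cast
    ring
  have e3 : pr A (fL f L) v = (L : ℝ) ^ (-(((D : ℝ) + 3) / 2)) * ∑ x ∈ A, ∑ a : Lab D L,
      f (emb L (x, ((a.2 : ℕ) : ℤ) + 1)) a.1 * v x a := by
    unfold pr fL
    rw [Finset.mul_sum]
    refine Finset.sum_congr rfl fun x _ => ?_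
    rw [Finset.mul_sum]
    refine Finset.sum_congr rfl fun a _ => ?_
    ring
  rw [e3, ← mul_assoc ((L : ℝ) ^ ((1 - (D : ℝ)) / 2)) ((L : ℝ) ^ (-(((D : ℝ) + 3) / 2))), e1,
    ← mul_assoc ((L : ℝ) ^ ((1 - (D : ℝ)) / 2)) ((L : ℝ) ^ ((1 - (D : ℝ)) / 2)), e2, mul_assoc]

/-- the variance on the lattice, in the variables of the continuum -/
lemma qA_scale (hL : 1 ≤ L) (f : Pt D → Fin D → ℝ) (A : Finset (Site D)) :
    qA A (fL f L) = sSup {t | ∃ v : SF D L, (∀ x, x ∉ A → v x = 0) ∧ t = JL f v - EL v} := by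
  have hL0 : (0 : ℝ) < L := by exact_mod_cast hL
  have hc : (0 : ℝ) < (L : ℝ) ^ ((1 - (D : ℝ)) / 2) := Real.rpow_pos_of_pos hL0 _
  unfold qA
  congr 1
  ext t
  constructor
  · rintro ⟨ω, hω, rfl⟩
    have hv : ∀ x, x ∉ A → (((L : ℝ) ^ ((1 - (D : ℝ)) / 2))⁻¹ • ω) x = 0 := by
      intro x hx
      rw [Pi.smul_apply, hω x hx, smul_zero]
    refine ⟨((L : ℝ) ^ ((1 - (D : ℝ)) / 2))⁻¹ • ω, hv, ?_⟩
    rw [← obj_eq hL f hv, smul_inv_smul₀ hc.ne']
  · rintro ⟨v, hv, rfl⟩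
    refine ⟨((L : ℝ) ^ ((1 - (D : ℝ)) / 2)) • v, fun x hx => by
      rw [Pi.smul_apply, hv x hx, smul_zero], ?_⟩
    rw [← obj_eq hL f hv]

lemma box_eq_Icc (R : ℕ) : box D R =
    Finset.Icc (fun _ : Fin D => -(R : ℤ)) (fun _ => (R : ℤ)) := by
  ext x
  rw [mem_box, Finset.mem_Icc, Pi.le_def, Pi.le_def]
  constructor
  · intro h
    exact ⟨fun i => (h i).1, fun i => (h i).2⟩
  · intro h i
    exact ⟨h.1 i, h.2 i⟩

/-- **Convergence of the variances**: from the upper bound -/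
theorem qA_tendsto {f : Pt D → Fin D → ℝ} (hf : Continuous f)
    (hB1 : ∀ ε > (0 : ℝ), ∀ᶠ L : ℕ in atTop, ∀ (A : Finset (Site D)) (v : SF D L),
      (∀ x, x ∉ A → v x = 0) → JL f v - EL v ≤ QC f + ε)
    {r : ℕ → ℕ} (hr : ∀ R : ℕ, ∀ᶠ L in atTop, R * L ≤ r L) :
    Tendsto (fun L : ℕ => qA (box D (r L)) (fL f L)) atTop (𝓝 (QC f)) := by
  rw [Metric.tendsto_atTop']
  intro ε hε
  -- a test field which is almost optimal
  obtain ⟨t, ⟨u, hu, rfl⟩, ht⟩ : ∃ t ∈ {t | ∃ u, IsTest u ∧ t = JC f u - EC u}, QC f - ε / 2 < t := by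
    refine exists_lt_of_lt_csSup ?_ (by unfold QC; linarith)
    refine ⟨_, 0, ?_, rfl⟩
    exact ⟨contDiff_const, HasCompactSupport.zero, fun _ => rfl⟩
  obtain ⟨R, hR⟩ := rs_supp hu
  have h1 := (JL_rs hf hu).sub (EL_rs hu)
  have h2 : ∀ᶠ L : ℕ in atTop, QC f - ε / 2 < JL f (rs L u) - EL (rs L u) :=
    h1.eventually_const_lt ht
  have h3 := hB1 (ε / 2) (by positivity)
  obtain ⟨n, hn⟩ := eventually_atTop.1 (h2.and (h3.and ((hr R).and (eventually_ge_atTop 1))))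
  refine ⟨n, fun L hL => ?_⟩
  obtain ⟨a1, a2, a3, a4⟩ := hn L (le_of_lt hL)
  rw [qA_scale a4, Real.dist_eq, abs_sub_lt_iff]
  have hne : {t | ∃ v : SF D L, (∀ x, x ∉ box D (r L) → v x = 0) ∧ t = JL f v - EL v}.Nonempty :=
    ⟨_, 0, fun _ _ => rfl, rfl⟩
  have hbdd : BddAbove {t | ∃ v : SF D L, (∀ x, x ∉ box D (r L) → v x = 0) ∧
      t = JL f v - EL v} := by
    refine ⟨QC f + ε / 2, ?_⟩
    rintro t ⟨v, hv, rfl⟩
    exact a2 _ v hv
  constructor
  · have h4 : sSup {t | ∃ v : SF D L, (∀ x, x ∉ box D (r L) → v x = 0) ∧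
        t = JL f v - EL v} ≤ QC f + ε / 2 := by
      refine csSup_le hne ?_
      rintro t ⟨v, hv, rfl⟩
      exact a2 _ v hv
    linarith
  · have h4 : JL f (rs L u) - EL (rs L u) ≤
        sSup {t | ∃ v : SF D L, (∀ x, x ∉ box D (r L) → v x = 0) ∧ t = JL f v - EL v} := by
      refine le_csSup hbdd ⟨rs L u, fun x hx => ?_, rfl⟩
      refine hR L a4 x fun hx2 => hx ?_
      rw [← box_eq_Icc] at hx2
      exact box_mono a3 hx2
    linarith

/-! ### the parameters -/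

lemma ev_Un {n : ℕ} {b : ℕ → ℝ} (hb : ∀ᶠ L : ℕ in atTop, (L : ℝ) ^ (n + 2) ≤ b L) {C : ℝ}
    (hC : 1 ≤ C) : ∀ᶠ L : ℕ in atTop, ((b L, C * L) : ℝ × ℝ) ∈ Pool.Agent.N990.Mach.Un n := by
  obtain ⟨m, hm⟩ := exists_nat_ge (C ^ (n + 1) + n + 1)
  filter_upwards [hb, eventually_ge_atTop m, eventually_ge_atTop 1] with L h1 h2 h3
  have hm' : (m : ℝ) ≤ L := by exact_mod_cast h2
  have hL : (1 : ℝ) ≤ L := by exact_mod_cast h3
  have hC0 : 0 ≤ C ^ (n + 1) := by positivity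
  have hn0 : (0 : ℝ) ≤ n := Nat.cast_nonneg _
  refine ⟨?_, ?_, ?_⟩
  · show (n : ℝ) + 1 ≤ b L
    have h4 : (L : ℝ) ≤ (L : ℝ) ^ (n + 2) := le_self_pow₀ hL (by omega)
    linarith
  · show 1 ≤ C * (L : ℝ)
    exact one_le_mul_of_one_le_of_one_le hC hL
  · show (C * (L : ℝ)) ^ (n + 1) ≤ b L
    have h4 : (L : ℝ) ^ (n + 2) = L * (L : ℝ) ^ (n + 1) := by rw [pow_succ']
    rw [mul_pow]
    refine le_trans ?_ h1
    rw [h4]
    refine mul_le_mul_of_nonneg_right ?_ (by positivity)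
    linarith

lemma fL_supp {f : Pt D → Fin D → ℝ} {K : ℕ} (hK : ∀ p, f p ≠ 0 → ‖p‖ ≤ K) (hL : 1 ≤ L)
    {x : Site D} (hx : x ∉ box D (K * L)) : fL f L x = 0 := by
  funext a
  unfold fL
  have hL0 : (0 : ℝ) < L := by exact_mod_cast hL
  by_cases h : f (emb L (x, ((a.2 : ℕ) : ℤ) + 1)) = 0
  · rw [h]; simp
  · exfalso
    apply hx
    have h1 := hK _ h
    rw [Prod.norm_def] at h1
    have h2 := (le_max_left _ _).trans h1
    rw [mem_box]
    intro i
    have h3 := (norm_le_pi_norm _ i).trans h2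
    unfold emb at h3
    simp only at h3
    rw [Real.norm_eq_abs, abs_div, abs_of_pos hL0, div_le_iff₀ hL0] at h3
    have h4 := abs_le.1 h3
    constructor
    · have : (-((K * L : ℕ) : ℤ) : ℝ) ≤ (x i : ℝ) := by push_cast; linarith
      exact_mod_cast this
    · have : (x i : ℝ) ≤ (((K * L : ℕ) : ℤ) : ℝ) := by push_cast; linarith
      exact_mod_cast this

lemma fL_nsq {f : Pt D → Fin D → ℝ} {M : ℝ} (hM : ∀ p i, |f p i| ≤ M) (hL : 1 ≤ L) (K : ℕ) :
    nsq (box D (K * L)) (fL f L) ≤ (2 * (K : ℝ) + 1) ^ D * D * M ^ 2 := by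
  have hL0 : (0 : ℝ) < L := by exact_mod_cast hL
  have hL1 : (1 : ℝ) ≤ L := by exact_mod_cast hL
  obtain ⟨c, hc⟩ : ∃ c : ℝ, c = (L : ℝ) ^ (-(((D : ℝ) + 3) / 2)) := ⟨_, rfl⟩
  have hc2 : c ^ 2 = ((L : ℝ) ^ (D + 3))⁻¹ := by
    rw [hc, ← Real.rpow_natCast, ← Real.rpow_mul hL0.le, ← Real.rpow_natCast,
      ← Real.rpow_neg hL0.le]
    congr 1
    push_cast
    ring
  have h1 : ∀ x a, fL f L x a ^ 2 ≤ c ^ 2 * M ^ 2 := by
    intro x a
    unfold fL
    rw [← hc, mul_pow]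
    refine mul_le_mul_of_nonneg_left ?_ (sq_nonneg _)
    rw [← sq_abs]
    exact pow_le_pow_left₀ (abs_nonneg _) (hM _ _) 2
  have h2 : ((box D (K * L)).card : ℝ) ≤ ((2 * (K : ℝ) + 1) * L) ^ D := by
    rw [box_card]
    push_cast
    refine pow_le_pow_left₀ (by positivity) ?_ D
    nlinarith
  calc nsq (box D (K * L)) (fL f L) ≤ ∑ x ∈ box D (K * L), ∑ a : Lab D L, c ^ 2 * M ^ 2 :=
        Finset.sum_le_sum fun x _ => Finset.sum_le_sum fun a _ => h1 x a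
    _ = (box D (K * L)).card * ((D * L) * (c ^ 2 * M ^ 2)) := by
        rw [Finset.sum_const, Finset.sum_const, Finset.card_univ, nsmul_eq_mul, nsmul_eq_mul,
          Fintype.card_prod, Fintype.card_fin, Fintype.card_fin]
        push_cast
        ring
    _ ≤ ((2 * (K : ℝ) + 1) * L) ^ D * ((D * L) * (c ^ 2 * M ^ 2)) :=
        mul_le_mul_of_nonneg_right h2 (by positivity)
    _ = (2 * (K : ℝ) + 1) ^ D * D * M ^ 2 * ((L : ℝ) ^ (D + 1) * c ^ 2) := by
        rw [mul_pow]; ring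
    _ ≤ (2 * (K : ℝ) + 1) ^ D * D * M ^ 2 * 1 := by
        refine mul_le_mul_of_nonneg_left ?_ (by positivity)
        rw [hc2, mul_inv_le_iff₀ (by positivity), one_mul]
        exact pow_le_pow_right₀ hL1 (by omega)
    _ = _ := mul_one _

variable {N : ℕ} {G : Subgroup (UU N)} [MeasurableSpace G] [BorelSpace G]

/-- **The continuum limit of the axial field.** The power `K₀` is universal. -/
theorem field_tendsto {μ : Measure G} [IsProbabilityMeasure μ] [μ.IsMulLeftInvariant]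
    (hM : MbU D μ) (n : ℕ) {κ : ℝ} (hκ : 0 ≤ κ) :
    ∃ K₀ : ℕ, ∀ (X : Fin n → Mt N) (γ : Fin n → ℝ → G), (∀ j, OneP (X j) (γ j) κ) →
      (∀ i j, ip (X i) (X j) = if i = j then 1 else 0) →
      ∀ (f : Fin n → Pt D → Fin D → ℝ), (∀ j, Continuous (f j)) →
      ∀ K : ℕ, (∀ j p, f j p ≠ 0 → ‖p‖ ≤ K) →
      ∀ b : ℕ → ℝ, (∀ᶠ L : ℕ in atTop, (L : ℝ) ^ K₀ ≤ b L) →
      ∀ Q : (L : ℕ) → Measure (Cf G D L),
      (∀ᶠ L : ℕ in atTop, Pool.Agent.N986.SL.AxGibbs μ Pool.Agent.N986.SL.chi (b L) (Q L)) →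
      Tendsto (fun L : ℕ => ∫ σ, Complex.exp (Complex.I *
        ((Real.sqrt (b L) * ∑ j, pr (box D (K * L)) (fL (f j) L) (sc (X j) σ) : ℝ) : ℂ)) ∂Q L) atTop
        (𝓝 (Complex.exp (-(((∑ j, QC (f j)) / 2 : ℝ) : ℂ)))) := by
  obtain ⟨n₀, hn₀⟩ := Pool.Agent.N990.Mach.fu_iff.1 (cltU (G := G) hM n 1 hκ)
  refine ⟨n₀ + 2, fun X γ hone hort f hf K hK b hb Q hQ => ?_⟩
  -- bounds of the test functions
  have hbd : ∀ j, ∃ M : ℝ, ∀ p i, |f j p i| ≤ M := by
    intro j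
    have hs : HasCompactSupport (f j) := by
      refine HasCompactSupport.intro (isCompact_closedBall (0 : Pt D) K) fun p hp => ?_
      by_contra h
      exact hp (mem_closedBall_zero_iff.2 (hK j p h))
    obtain ⟨M, hM⟩ := hs.exists_bound_of_continuous (hf j)
    exact ⟨M, fun p i => (norm_le_pi_norm (f j p) i).trans (hM p)⟩
  choose M hM' using hbd
  have hfs : ∀ j, HasCompactSupport (f j) := fun j =>
    HasCompactSupport.intro (isCompact_closedBall (0 : Pt D) K) fun p hp => by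
      by_contra h
      exact hp (mem_closedBall_zero_iff.2 (hK j p h))
  obtain ⟨C, hC⟩ : ∃ C : ℝ, C = (∑ j, (2 * (K : ℝ) + 1) ^ D * D * M j ^ 2) + K + 1 := ⟨_, rfl⟩
  have hCs : 0 ≤ ∑ j, (2 * (K : ℝ) + 1) ^ D * D * M j ^ 2 :=
    Finset.sum_nonneg fun j _ => by positivity
  have hK0 : (0 : ℝ) ≤ K := Nat.cast_nonneg _
  have hC1 : 1 ≤ C := by rw [hC]; linarith
  have h1 : ∀ᶠ L : ℕ in atTop, ((b L, C * L) : ℝ × ℝ) ∈ Pool.Agent.N990.Mach.Un n₀ := ev_Un hb hC1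
  -- the variances
  have hlog : ∀ R : ℕ, ∀ᶠ L : ℕ in atTop, R * L ≤ rad (alp L) (K * L) (b L) := by
    intro R
    obtain ⟨m, hm⟩ := exists_nat_ge (Real.exp R)
    filter_upwards [hb, eventually_ge_atTop m, eventually_ge_atTop 1] with L hL hLm hL1
    have hL1' : (1 : ℝ) ≤ L := by exact_mod_cast hL1
    have h3 : (m : ℝ) ≤ L := by exact_mod_cast hLm
    have h4' : (L : ℝ) ≤ (L : ℝ) ^ (n₀ + 2) := le_self_pow₀ hL1' (by omega)
    have h4 : Real.exp R ≤ b L := ((hm.trans h3).trans h4').trans hL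
    have h5 : (R : ℝ) ≤ Real.log (b L) := by
      rw [Real.le_log_iff_exp_le (lt_of_lt_of_le (Real.exp_pos _) h4)]
      exact h4
    have h6 := rad_low hL1 (K * L) (β := b L) (by linarith)
    have h7 : (R : ℝ) * L ≤ rad (alp L) (K * L) (b L) := by
      have h8 : (R : ℝ) * L ≤ L * Real.log (b L) := by nlinarith
      have h9 : (0 : ℝ) ≤ ((K * L : ℕ) : ℝ) := Nat.cast_nonneg _
      linarith
    exact_mod_cast h7
  have h2 : Tendsto (fun L : ℕ => ∑ j, qA (box D (rad (alp L) (K * L) (b L))) (fL (f j) L)) atTop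
      (𝓝 (∑ j, QC (f j))) :=
    tendsto_finsetSum _ fun j _ => qA_tendsto (hf j) (fun ε hε => by
      obtain ⟨L₀, -, h⟩ := Pool.Agent.N990.C.up (hf j) (hfs j) hε
      filter_upwards [eventually_ge_atTop L₀] with L hL A v hv
      exact h L hL A v fun x hx => hv x hx) hlog
  have h3 : Tendsto (fun L : ℕ => Complex.exp (-(((∑ j,
      qA (box D (rad (alp L) (K * L) (b L))) (fL (f j) L)) / 2 : ℝ) : ℂ))) atTop
      (𝓝 (Complex.exp (-(((∑ j, QC (f j)) / 2 : ℝ) : ℂ)))) := by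
    have h4 : Continuous fun t : ℝ => Complex.exp (-((t / 2 : ℝ) : ℂ)) := by fun_prop
    exact (h4.tendsto _).comp h2
  have h4 : Tendsto (fun L : ℕ => ∫ σ, Complex.exp (Complex.I *
      ((Real.sqrt (b L) * ∑ j, pr (box D (K * L)) (fL (f j) L) (sc (X j) σ) : ℝ) : ℂ)) ∂Q L -
      Complex.exp (-(((∑ j, qA (box D (rad (alp L) (K * L) (b L))) (fL (f j) L)) / 2 : ℝ) : ℂ)))
      atTop (𝓝 0) := by
    rw [tendsto_zero_iff_norm_tendsto_zero]
    refine squeeze_zero' (g := fun L : ℕ => 1 / (C * (L : ℝ)))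
      (Filter.Eventually.of_forall fun L => norm_nonneg _) ?_ ?_
    · filter_upwards [h1, hQ, eventually_ge_atTop 1] with L h1 hQ hL1
      have hL1' : (1 : ℝ) ≤ L := by exact_mod_cast hL1
      have h5 := hn₀ _ h1 L hL1 (by
        show (L : ℝ) ≤ C * L
        exact le_mul_of_one_le_left (by positivity) hC1) (K * L) (by
        show ((K * L : ℕ) : ℝ) + 1 ≤ C * L
        push_cast
        have : (K : ℝ) * L + 1 * L ≤ C * L := by
          rw [← add_mul]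
          refine mul_le_mul_of_nonneg_right ?_ (by positivity)
          rw [hC]; linarith
        linarith) (Q L) hQ X γ hone hort (fun j => fL (f j) L)
        (fun j x hx => fL_supp (hK j) hL1 hx) (fun j => by
          show nsq (box D (K * L)) (fL (f j) L) ≤ (C * L) ^ 1
          rw [pow_one]
          refine (fL_nsq (hM' j) hL1 K).trans ?_
          have h6 : (2 * (K : ℝ) + 1) ^ D * D * M j ^ 2 ≤
              ∑ j, (2 * (K : ℝ) + 1) ^ D * D * M j ^ 2 :=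
            Finset.single_le_sum (f := fun j => (2 * (K : ℝ) + 1) ^ D * D * M j ^ 2)
              (fun j _ => by positivity) (Finset.mem_univ j)
          have h7 : C ≤ C * L := le_mul_of_one_le_right (by linarith) hL1'
          have h8 : ∑ j, (2 * (K : ℝ) + 1) ^ D * D * M j ^ 2 ≤ C := by rw [hC]; linarith
          linarith)
      simp only [pow_one] at h5
      exact h5
    · have h5 : Tendsto (fun L : ℕ => 1 / ((L : ℝ))) atTop (𝓝 0) :=
        tendsto_one_div_atTop_nhds_zero_nat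
      have h6 := h5.const_mul (1 / C)
      rw [mul_zero] at h6
      refine h6.congr fun L => ?_
      rw [one_div_mul_one_div]
  have h5 := h4.add h3
  rw [zero_add] at h5
  refine h5.congr fun L => ?_
  rw [sub_add_cancel]

end

end Pool.Agent.N109.CL
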