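import Pool.Agent.N109.CL.Asm
import Pool.Agent.N986.U.SysCU

/-!
# The continuum limit of the axial field: closed subgroups of `U(N)`
-/

set_option autoImplicit false
set_option linter.unusedSectionVars false
set_option linter.unusedVariables false

open MeasureTheory Finset Function Filter Topology
open scoped Matrix.Norms.Frobenius

namespace Pool.Agent.N109.CL

open Pool.Agent.N990 hiding CB CB_nonneg dd_le
open Pool.Agent.N109.Slab Pool.Agent.N109.SlabU
open Pool.Agent.N990.C hiding ext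

noncomputable section

variable {D N : ℕ} {G : Subgroup (UU N)} [MeasurableSpace G] [BorelSpace G]

/-- **The continuum limit of the axial field** for a closed subgroup of `U(N)`; the power `K₀` is
universal, and for `X j` in the Lie algebra of `G` one can take `κ = 1` (`oneP_lie`). -/
theorem ax_tendsto (hG : IsClosed (G : Set (UU N))) (μ : Measure G) [IsProbabilityMeasure μ]
    [μ.IsMulLeftInvariant] (n : ℕ) {κ : ℝ} (hκ : 0 ≤ κ) :
    ∃ K₀ : ℕ, ∀ (X : Fin n → Mt N) (γ : Fin n → ℝ → G), (∀ j, OneP (X j) (γ j) κ) →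
      (∀ i j, ip (X i) (X j) = if i = j then 1 else 0) →
      ∀ (f : Fin n → Pt D → Fin D → ℝ), (∀ j, Continuous (f j)) →
      ∀ K : ℕ, (∀ j p, f j p ≠ 0 → ‖p‖ ≤ K) →
      ∀ b : ℕ → ℝ, (∀ᶠ L : ℕ in atTop, (L : ℝ) ^ K₀ ≤ b L) →
      ∀ Q : (L : ℕ) → Measure (Cf G D L),
      (∀ᶠ L : ℕ in atTop, Pool.Agent.N986.SL.AxGibbs μ Pool.Agent.N986.SL.chi (b L) (Q L)) →
      Tendsto (fun L : ℕ => ∫ σ, Complex.exp (Complex.I *
        ((Real.sqrt (b L) * ∑ j, pr (box D (K * L)) (fL (f j) L) (sc (X j) σ) : ℝ) : ℂ)) ∂Q L) atTop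
        (𝓝 (Complex.exp (-(((∑ j, QC (f j)) / 2 : ℝ) : ℂ)))) :=
  field_tendsto (fun _ he => Pool.Agent.N986.SL.mbU hG μ he) n hκ

end

end Pool.Agent.N109.CL
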