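import Pool.Agent.N990.C.Low2

/-!
# The limit field is not degenerate
-/

set_option autoImplicit false
set_option linter.unusedSectionVars false
set_option linter.unusedVariables false

open MeasureTheory Set Filter Topology

namespace Pool.Agent.N109.CL

open Pool.Agent.N990 Pool.Agent.N990.C

noncomputable section

variable {D : ℕ}

/-- the variance is positive: open form -/
lemma QC_pos' {f : Pt D → Fin D → ℝ} (hf : Continuous f) (hfs : HasCompactSupport f) {p : Pt D}
    (h0 : 0 < p.2) (h1 : p.2 < 1) {i : Fin D} (hi : f p i ≠ 0) : 0 < QC f := by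
  classical
  obtain ⟨c, hc⟩ : ∃ c, c = f p i := ⟨_, rfl⟩
  have hc0 : c ≠ 0 := hc ▸ hi
  have hfi : Continuous fun q => f q i := (continuous_apply i).comp hf
  have hopen : IsOpen {q : Pt D | 0 < c * f q i ∧ 0 < q.2 ∧ q.2 < 1} :=
    (isOpen_lt continuous_const (continuous_const.mul hfi)).inter
      ((isOpen_lt continuous_const continuous_snd).inter (isOpen_lt continuous_snd continuous_const))
  have hmem : p ∈ {q : Pt D | 0 < c * f q i ∧ 0 < q.2 ∧ q.2 < 1} := by
    refine ⟨?_, h0, h1⟩
    rw [← hc]
    exact mul_self_pos.2 hc0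
  obtain ⟨ε, hε, hball⟩ := Metric.isOpen_iff.1 hopen p hmem
  let b : ContDiffBump p := ⟨ε / 2, ε, half_pos hε, half_lt_self hε⟩
  have hbs : ∀ q, b q ≠ 0 → q ∈ Metric.ball p ε := by
    intro q hq
    have : q ∈ Function.support b := hq
    rw [b.support_eq] at this
    exact this
  obtain ⟨u, hu⟩ : ∃ u : Pt D → Fin D → ℝ, u = fun q => Pi.single i (c * b q) := ⟨_, rfl⟩
  have hui : ∀ q, u q i = c * b q := fun q => by rw [hu]; simp
  have huj : ∀ q j, j ≠ i → u q j = 0 := fun q j hj => by rw [hu]; simp [hj]
  have ht : IsTest u := by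
    refine ⟨?_, ?_, fun y => ?_⟩
    · rw [contDiff_pi]
      intro j
      by_cases hj : j = i
      · subst hj
        simp only [hui]
        exact contDiff_const.mul b.contDiff
      · simp only [huj _ _ hj]
        exact contDiff_const
    · refine b.hasCompactSupport.mono fun q hq => ?_
      rw [Function.mem_support] at hq ⊢
      intro h
      apply hq
      funext j
      by_cases hj : j = i
      · subst hj
        rw [hui, h, mul_zero]; rfl
      · rw [huj _ _ hj]; rfl
    · by_cases hb : b (y, 0) = 0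
      · funext j
        by_cases hj : j = i
        · subst hj
          rw [hui, hb, mul_zero]; rfl
        · rw [huj _ _ hj]; rfl
      · exact absurd (hball (hbs _ hb)).2.1 (lt_irrefl _)
  have hsum : ∀ q, ∑ j, f q j * u q j = c * f q i * b q := by
    intro q
    rw [Finset.sum_eq_single i]
    · rw [hui]; ring
    · intro j _ hj; rw [huj _ _ hj, mul_zero]
    · intro h; exact absurd (Finset.mem_univ _) h
  have hJ : 0 < JC f u := by
    unfold JC
    simp only [hsum]
    have e1 : ∫ q in Slb D, c * f q i * b q = ∫ q, c * f q i * b q := by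
      refine setIntegral_eq_integral_of_forall_compl_eq_zero fun q hq => ?_
      by_cases hb : b q = 0
      · rw [hb, mul_zero]
      · have h2 := (hball (hbs _ hb)).2
        exact absurd ⟨h2.1.le, h2.2.le⟩ hq
    rw [e1]
    refine mul_pos two_pos (Continuous.integral_pos_of_hasCompactSupport_nonneg_nonzero (x := p)
      ((continuous_const.mul hfi).mul b.continuous) b.hasCompactSupport.mul_left ?_ ?_)
    · intro q
      by_cases hb : b q = 0
      · simp only [hb, mul_zero]; exact le_rfl
      · exact mul_nonneg (hball (hbs _ hb)).1.le b.nonneg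
    · refine mul_ne_zero (mul_ne_zero hc0 hi) ?_
      exact (b.pos_of_mem_ball (Metric.mem_ball_self hε)).ne'
  obtain ⟨s, hs⟩ : ∃ s : ℝ, s = JC f u / (2 * (|EC u| + 1)) := ⟨_, rfl⟩
  have hE : 0 < |EC u| + 1 := by positivity
  have hs0 : 0 < s := by rw [hs]; positivity
  have h3 := scale_QC hf hfs ht hs0
  have h4 : s * EC u ≤ JC f u / 2 := by
    calc s * EC u ≤ s * (|EC u| + 1) :=
          mul_le_mul_of_nonneg_left (by linarith [le_abs_self (EC u)]) hs0.le
      _ = JC f u / 2 := by rw [hs]; field_simp
  have h5 : 0 < 1 / s * QC f := by linarith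
  exact (mul_pos_iff_of_pos_left (by positivity)).1 h5

/-- **The limit field is not degenerate**: the variance is positive for every test field which does
not vanish in the slab. -/
theorem QC_pos {f : Pt D → Fin D → ℝ} (hf : Continuous f) (hfs : HasCompactSupport f)
    (h : ∃ p : Pt D, 0 < p.2 ∧ p.2 ≤ 1 ∧ f p ≠ 0) : 0 < QC f := by
  obtain ⟨p, h0, h1, hp⟩ := h
  obtain ⟨i, hi⟩ : ∃ i, f p i ≠ 0 := by
    by_contra hcon
    push Not at hcon
    exact hp (funext hcon)
  have hopen : IsOpen {q : Pt D | f q i ≠ 0} :=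
    isOpen_ne_fun ((continuous_apply i).comp hf) continuous_const
  obtain ⟨ε, hε, hball⟩ := Metric.isOpen_iff.1 hopen p hi
  obtain ⟨δ, hδ⟩ : ∃ δ, δ = min (ε / 2) (p.2 / 2) := ⟨_, rfl⟩
  have hδ0 : 0 < δ := by rw [hδ]; exact lt_min (by linarith) (by linarith)
  have hδ1 : δ ≤ ε / 2 := hδ ▸ min_le_left _ _
  have hδ2 : δ ≤ p.2 / 2 := hδ ▸ min_le_right _ _
  have hq : ((p.1, p.2 - δ) : Pt D) ∈ Metric.ball p ε := by
    rw [Metric.mem_ball, Prod.dist_eq]
    refine max_lt ?_ ?_
    · rw [dist_self]; exact hε
    · rw [Real.dist_eq]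
      have : p.2 - δ - p.2 = -δ := by ring
      simp only [this, abs_neg, abs_of_pos hδ0]
      linarith
  exact QC_pos' hf hfs (p := (p.1, p.2 - δ)) (by simp only; linarith) (by simp only; linarith)
    (hball hq)

end

end Pool.Agent.N109.CL
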